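import Pool.Agent.Y995.LG.Stm

/-!
# Project LG: positions of lattice states relative to a rectangle (helper523, for helper995)
-/

set_option autoImplicit false

namespace Pool.Agent.Y523.LG

open H984P H984N Filter Topology Pool.Agent.Y995.LG

/-- exactly one of the two faces is inner: the examined edge is a boundary edge -/
theorem bdry (D : Dm) (σ : St)
    (h : TH992.T.Out D (face σ) ↔ ¬ TH992.T.Out D (face (rt σ))) :
    (∃ x : ℤ, ae σ = (x, σ.1.2, true) ∧ D.l ≤ x ∧ x < D.r ∧ (σ.1.2 = 0 ∨ σ.1.2 = D.h) ∧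
      σ.1.1 - 1 ≤ x ∧ x ≤ σ.1.1) ∨
    (∃ y : ℤ, ae σ = (σ.1.1, y, false) ∧ 0 ≤ y ∧ y < D.h ∧ (σ.1.1 = D.l ∨ σ.1.1 = D.r)) := by
  obtain ⟨⟨x, y⟩, q⟩ := σ
  cases q
  · left
    refine ⟨x, rfl, ?_⟩
    simp only [TH992.T.Out, face_ne, rt_ne, face_se] at h ⊢
    omega
  · right
    refine ⟨y, rfl, ?_⟩
    simp only [TH992.T.Out, face_nw, rt_nw, face_ne] at h ⊢
    omega
  · left
    refine ⟨x - 1, rfl, ?_⟩
    simp only [TH992.T.Out, face_sw, rt_sw, face_nw] at h ⊢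
    omega
  · right
    refine ⟨y - 1, rfl, ?_⟩
    simp only [TH992.T.Out, face_se, rt_se, face_sw] at h ⊢
    omega

/-- the face is next to the vertex -/
theorem face_near (σ : St) : σ.1.1 - 1 ≤ (face σ).1 ∧ (face σ).1 ≤ σ.1.1 ∧
    σ.1.2 - 1 ≤ (face σ).2 ∧ (face σ).2 ≤ σ.1.2 := by
  obtain ⟨⟨x, y⟩, q⟩ := σ
  cases q <;> simp

/-- the floors -/
structure Co (κ : Loc) (n : ℕ) (σ : St) : Prop where
  n1 : (1 : ℝ) ≤ n
  x1 : (σ.1.1 : ℝ) - n * κ.β ≤ ((shS (-κ.s n) σ).1.1 : ℝ)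
  x2 : ((shS (-κ.s n) σ).1.1 : ℝ) < (σ.1.1 : ℝ) - n * κ.β + 1
  y1 : (σ.1.2 : ℝ) - n * κ.b - 1 ≤ ((shS (-κ.s n) σ).1.2 : ℝ)
  y2 : ((shS (-κ.s n) σ).1.2 : ℝ) < (σ.1.2 : ℝ) - n * κ.b
  l1 : n * κ.l - n * κ.β < ((κ.dm n).l : ℝ)
  l2 : ((κ.dm n).l : ℝ) ≤ n * κ.l - n * κ.β + 1
  r1 : n * κ.r - n * κ.β - 1 ≤ ((κ.dm n).r : ℝ)
  r2 : ((κ.dm n).r : ℝ) < n * κ.r - n * κ.β
  h1 : n * κ.h - n * κ.b - 2 ≤ ((κ.dm n).h : ℝ)
  h2 : ((κ.dm n).h : ℝ) < n * κ.h - n * κ.b - 1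
  t1 : n * κ.α - n * κ.β - 1 < ((κ.dm n).t : ℝ)
  t2 : ((κ.dm n).t : ℝ) ≤ n * κ.α - n * κ.β

theorem co (κ : Loc) (n : ℕ) (hn : 1 ≤ n) (σ : St) : Co κ n σ := by
  have hn1 : (1 : ℝ) ≤ n := by exact_mod_cast hn
  have hd : ∀ a : ℝ, a / (1 / (n : ℝ)) = n * a := fun a => by
    rw [div_div_eq_mul_div, div_one, mul_comm]
  have hl : (κ.dm n).l = ⌊-(n * (κ.β - κ.l))⌋ + 1 := by
    show ⌊-((κ.β - κ.l) / (1 / (n : ℝ)))⌋ + 1 = _
    rw [hd]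
  have hr : (κ.dm n).r = ⌈n * (κ.r - κ.β)⌉ - 1 := by
    show ⌈(κ.r - κ.β) / (1 / (n : ℝ))⌉ - 1 = _
    rw [hd]
  have hh : (κ.dm n).h = ⌈n * (κ.h - κ.b)⌉ - 2 := by
    show ⌈(κ.h - κ.b) / (1 / (n : ℝ))⌉ - 2 = _
    rw [hd]
  have ht : (κ.dm n).t = ⌊n * (κ.α - κ.β)⌋ := by
    show ⌊(κ.α - κ.β) / (1 / (n : ℝ))⌋ = _
    rw [hd]
  have hx : (shS (-κ.s n) σ).1.1 = σ.1.1 - ⌊(n : ℝ) * κ.β⌋ := by
    show σ.1.1 + -⌊(n : ℝ) * κ.β⌋ = _
    ring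
  have hy : (shS (-κ.s n) σ).1.2 = σ.1.2 - ⌊(n : ℝ) * κ.b⌋ - 1 := by
    show σ.1.2 + -(⌊(n : ℝ) * κ.b⌋ + 1) = _
    ring
  have a1 := Int.floor_le ((n : ℝ) * κ.β)
  have a2 := Int.lt_floor_add_one ((n : ℝ) * κ.β)
  have b1 := Int.floor_le ((n : ℝ) * κ.b)
  have b2 := Int.lt_floor_add_one ((n : ℝ) * κ.b)
  have c1 := Int.floor_le (-((n : ℝ) * (κ.β - κ.l)))
  have c2 := Int.lt_floor_add_one (-((n : ℝ) * (κ.β - κ.l)))
  have d1 := Int.le_ceil ((n : ℝ) * (κ.r - κ.β))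
  have d2 := Int.ceil_lt_add_one ((n : ℝ) * (κ.r - κ.β))
  have e1 := Int.le_ceil ((n : ℝ) * (κ.h - κ.b))
  have e2 := Int.ceil_lt_add_one ((n : ℝ) * (κ.h - κ.b))
  have f1 := Int.floor_le ((n : ℝ) * (κ.α - κ.β))
  have f2 := Int.lt_floor_add_one ((n : ℝ) * (κ.α - κ.β))
  constructor
  · exact hn1
  · rw [hx]; push_cast; linarith
  · rw [hx]; push_cast; linarith
  · rw [hy]; push_cast; linarith
  · rw [hy]; push_cast; linarith
  · rw [hl]; push_cast; linarith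
  · rw [hl]; push_cast; linarith
  · rw [hr]; push_cast; linarith
  · rw [hr]; push_cast; linarith
  · rw [hh]; push_cast; linarith
  · rw [hh]; push_cast; linarith
  · rw [ht]; linarith
  · rw [ht]; linarith

theorem exists_n (ρ : ℝ) (hρ : 0 < ρ) : ∃ n0 : ℕ, ∀ n ≥ n0, 1 ≤ n ∧ 10 < (n : ℝ) * ρ := by
  obtain ⟨m, hm⟩ := exists_nat_gt (10 / ρ)
  refine ⟨max m 1, fun n hn => ⟨le_trans (le_max_right _ _) hn, ?_⟩⟩
  have h1 : (m : ℝ) ≤ n := by exact_mod_cast le_trans (le_max_left _ _) hn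
  have h2 : 10 / ρ < n := lt_of_lt_of_le hm h1
  rwa [div_lt_iff₀ hρ] at h2

theorem pt_re (n : ℕ) (v : ℤ × ℤ) (hn : (1 : ℝ) ≤ n) :
    (v.1 : ℝ) = n * (H342L.pt n v).re := by
  show (v.1 : ℝ) = n * ((v.1 : ℝ) / n)
  field_simp

theorem pt_im (n : ℕ) (v : ℤ × ℤ) (hn : (1 : ℝ) ≤ n) :
    (v.2 : ℝ) = n * (H342L.pt n v).im := by
  show (v.2 : ℝ) = n * ((v.2 : ℝ) / n)
  field_simp

theorem near {z w : ℂ} {η : ℝ} (h : dist z w < η) :
    w.re - η < z.re ∧ z.re < w.re + η ∧ w.im - η < z.im ∧ z.im < w.im + η := by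
  rw [dist_eq_norm] at h
  have h1 := abs_lt.1 (lt_of_le_of_lt (Complex.abs_re_le_norm (z - w)) h)
  have h2 := abs_lt.1 (lt_of_le_of_lt (Complex.abs_im_le_norm (z - w)) h)
  simp only [Complex.sub_re, Complex.sub_im] at h1 h2
  refine ⟨?_, ?_, ?_, ?_⟩ <;> linarith [h1.1, h1.2, h2.1, h2.2]

theorem part1 (κ : Loc) (ρ : ℝ) (hρ : 0 < ρ) : ∃ n0 : ℕ, ∀ n ≥ n0, ∀ σ : St,
    ((κ.l + ρ < (H342L.pt n σ.1).re ∧ (H342L.pt n σ.1).re < κ.r - ρ ∧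
      κ.b + ρ < (H342L.pt n σ.1).im ∧ (H342L.pt n σ.1).im < κ.h - ρ) →
        ¬ TH992.T.Out (κ.dm n) (face (shS (-κ.s n) σ))) ∧
    (((H342L.pt n σ.1).re < κ.l - ρ ∨ κ.r + ρ < (H342L.pt n σ.1).re ∨
      (H342L.pt n σ.1).im < κ.b - ρ ∨ κ.h + ρ < (H342L.pt n σ.1).im) →
        TH992.T.Out (κ.dm n) (face (shS (-κ.s n) σ))) := by
  obtain ⟨n0, hn0⟩ := exists_n ρ hρ
  refine ⟨n0, fun n hn σ => ?_⟩
  obtain ⟨hn1, hnρ⟩ := hn0 n hn
  have C := co κ n hn1 σ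
  have hn' : (0 : ℝ) < n := lt_of_lt_of_le one_pos C.n1
  have px := pt_re n σ.1 C.n1
  have py := pt_im n σ.1 C.n1
  obtain ⟨g1, g2, g3, g4⟩ := face_near (shS (-κ.s n) σ)
  have g1' : ((shS (-κ.s n) σ).1.1 : ℝ) - 1 ≤ (face (shS (-κ.s n) σ)).1 := by exact_mod_cast g1
  have g2' : ((face (shS (-κ.s n) σ)).1 : ℝ) ≤ (shS (-κ.s n) σ).1.1 := by exact_mod_cast g2
  have g3' : ((shS (-κ.s n) σ).1.2 : ℝ) - 1 ≤ (face (shS (-κ.s n) σ)).2 := by exact_mod_cast g3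
  have g4' : ((face (shS (-κ.s n) σ)).2 : ℝ) ≤ (shS (-κ.s n) σ).1.2 := by exact_mod_cast g4
  constructor
  · rintro ⟨h1, h2, h3, h4⟩ hO
    apply hO
    have m1 := mul_lt_mul_of_pos_left h1 hn'
    have m2 := mul_lt_mul_of_pos_left h2 hn'
    have m3 := mul_lt_mul_of_pos_left h3 hn'
    have m4 := mul_lt_mul_of_pos_left h4 hn'
    refine ⟨⟨?_, ?_⟩, ?_, ?_⟩
    · have : ((κ.dm n).l : ℝ) ≤ (face (shS (-κ.s n) σ)).1 := by linarith [C.x1, C.l2]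
      exact_mod_cast this
    · have : ((face (shS (-κ.s n) σ)).1 : ℝ) < (κ.dm n).r := by linarith [C.x2, C.r1]
      exact_mod_cast this
    · have : (0 : ℝ) ≤ (face (shS (-κ.s n) σ)).2 := by linarith [C.y1]
      exact_mod_cast this
    · have : ((face (shS (-κ.s n) σ)).2 : ℝ) < (κ.dm n).h := by linarith [C.y2, C.h1]
      exact_mod_cast this
  · rintro h ⟨⟨k1, k2⟩, k3, k4⟩
    have k1' : ((κ.dm n).l : ℝ) ≤ (face (shS (-κ.s n) σ)).1 := by exact_mod_cast k1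
    have k2' : ((face (shS (-κ.s n) σ)).1 : ℝ) < (κ.dm n).r := by exact_mod_cast k2
    have k3' : (0 : ℝ) ≤ (face (shS (-κ.s n) σ)).2 := by exact_mod_cast k3
    have k4' : ((face (shS (-κ.s n) σ)).2 : ℝ) < (κ.dm n).h := by exact_mod_cast k4
    rcases h with h | h | h | h
    · have m1 := mul_lt_mul_of_pos_left h hn'
      linarith [C.x2, C.l1]
    · have m1 := mul_lt_mul_of_pos_left h hn'
      linarith [C.x1, C.r2]
    · have m1 := mul_lt_mul_of_pos_left h hn'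
      linarith [C.y2]
    · have m1 := mul_lt_mul_of_pos_left h hn'
      linarith [C.y1, C.h2]

/-- a common margin -/
theorem margin {a b c : ℝ} (ha : 0 < a) (hb : 0 < b) (hc : 0 < c) :
    ∃ η : ℝ, 0 < η ∧ 2 * η ≤ a ∧ 2 * η ≤ b ∧ 2 * η ≤ c := by
  refine ⟨min a (min b c) / 2, by positivity, ?_, ?_, ?_⟩
  · linarith [min_le_left a (min b c)]
  · linarith [min_le_right a (min b c), min_le_left b c]
  · linarith [min_le_right a (min b c), min_le_right b c]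

theorem part2 (κ : Loc) (w : ℂ) (hw : w ∈ κ.left) : ∃ η : ℝ, 0 < η ∧ ∃ n0 : ℕ, ∀ n ≥ n0,
    ∀ σ : St, dist (H342L.pt n σ.1) w < η →
    (TH992.T.Out (κ.dm n) (face (shS (-κ.s n) σ)) ↔
      ¬ TH992.T.Out (κ.dm n) (face (shS (-κ.s n) (rt σ)))) →
    ae (shS (-κ.s n) σ) ∈ (κ.dm n).wir := by
  have A : ∃ η : ℝ, 0 < η ∧ w.re + 2 * η ≤ κ.r ∧ (w.im + 2 * η ≤ κ.h ∨ w.re + 2 * η ≤ κ.α) ∧
      (κ.b + 2 * η ≤ w.im ∨ w.re + 2 * η ≤ κ.β) := by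
    rcases hw with ⟨h1, h2, h3⟩ | ⟨h1, h2, h3⟩ | ⟨h1, h2, h3⟩
    · obtain ⟨η, hη, e1, e2, e3⟩ := margin (a := κ.r - w.re) (b := κ.α - w.re) (c := κ.β - w.re)
        (by linarith [κ.lα, κ.αr]) (by linarith [κ.lα]) (by linarith [κ.lβ])
      exact ⟨η, hη, by linarith, Or.inr (by linarith), Or.inr (by linarith)⟩
    · obtain ⟨η, hη, e1, e2, e3⟩ := margin (a := κ.r - w.re) (b := κ.α - w.re) (c := w.im - κ.b)
        (by linarith [κ.αr]) (by linarith) (by linarith [κ.bh])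
      exact ⟨η, hη, by linarith, Or.inr (by linarith), Or.inl (by linarith)⟩
    · obtain ⟨η, hη, e1, e2, e3⟩ := margin (a := κ.r - w.re) (b := κ.h - w.im) (c := κ.β - w.re)
        (by linarith [κ.βr]) (by linarith [κ.bh]) (by linarith)
      exact ⟨η, hη, by linarith, Or.inl (by linarith), Or.inr (by linarith)⟩
  obtain ⟨η, hη, E1, E2, E3⟩ := A
  obtain ⟨n0, hn0⟩ := exists_n η hη
  refine ⟨η, hη, n0, fun n hn σ hd hO => ?_⟩
  obtain ⟨hn1, hnη⟩ := hn0 n hn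
  have C := co κ n hn1 σ
  have hn' : (0 : ℝ) < n := lt_of_lt_of_le one_pos C.n1
  have px := pt_re n σ.1 C.n1
  have py := pt_im n σ.1 C.n1
  obtain ⟨d1, d2, d3, d4⟩ := near hd
  have m1 := mul_lt_mul_of_pos_left d1 hn'
  have m2 := mul_lt_mul_of_pos_left d2 hn'
  have m3 := mul_lt_mul_of_pos_left d3 hn'
  have m4 := mul_lt_mul_of_pos_left d4 hn'
  have hrt : shS (-κ.s n) (rt σ) = rt (shS (-κ.s n) σ) := by
    obtain ⟨⟨x, y⟩, q⟩ := σ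
    cases q <;> rfl
  rw [hrt] at hO
  rcases bdry _ _ hO with ⟨x, hx, x1, x2, x3, x4, x5⟩ | ⟨y, hy, y1, y2, y3⟩
  · rw [hx]
    have x5' : (x : ℝ) ≤ (shS (-κ.s n) σ).1.1 := by exact_mod_cast x5
    rcases x3 with x3 | x3
    · right; right
      refine ⟨rfl, x3, x1, ?_⟩
      show x < 0
      have x3' : ((shS (-κ.s n) σ).1.2 : ℝ) = 0 := by exact_mod_cast x3
      rcases E3 with E3 | E3
      · have := mul_le_mul_of_nonneg_left E3 hn'.le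
        exfalso
        linarith [C.y1]
      · have := mul_le_mul_of_nonneg_left E3 hn'.le
        have : (x : ℝ) < 0 := by linarith [C.x2]
        exact_mod_cast this
    · left
      refine ⟨rfl, x3, x1, ?_⟩
      show x < (κ.dm n).t
      have x3' : ((shS (-κ.s n) σ).1.2 : ℝ) = (κ.dm n).h := by exact_mod_cast x3
      rcases E2 with E2 | E2
      · have := mul_le_mul_of_nonneg_left E2 hn'.le
        exfalso
        linarith [C.y2, C.h1]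
      · have := mul_le_mul_of_nonneg_left E2 hn'.le
        have : (x : ℝ) < (κ.dm n).t := by linarith [C.x2, C.t1]
        exact_mod_cast this
  · rw [hy]
    rcases y3 with y3 | y3
    · right; left
      exact ⟨rfl, y3, y1, y2⟩
    · have y3' : ((shS (-κ.s n) σ).1.1 : ℝ) = (κ.dm n).r := by exact_mod_cast y3
      have := mul_le_mul_of_nonneg_left E1 hn'.le
      exfalso
      linarith [C.x2, C.r1]

theorem part3 (κ : Loc) (w : ℂ) (hw : w ∈ κ.right) : ∃ η : ℝ, 0 < η ∧ ∃ n0 : ℕ, ∀ n ≥ n0,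
    ∀ σ : St, dist (H342L.pt n σ.1) w < η →
    (TH992.T.Out (κ.dm n) (face (shS (-κ.s n) σ)) ↔
      ¬ TH992.T.Out (κ.dm n) (face (shS (-κ.s n) (rt σ)))) →
    ae (shS (-κ.s n) σ) ∉ (κ.dm n).wir := by
  have A : ∃ η : ℝ, 0 < η ∧ κ.l + 2 * η ≤ w.re ∧ (w.im + 2 * η ≤ κ.h ∨ κ.α + 2 * η ≤ w.re) ∧
      (κ.b + 2 * η ≤ w.im ∨ κ.β + 2 * η ≤ w.re) := by
    rcases hw with ⟨h1, h2, h3⟩ | ⟨h1, h2, h3⟩ | ⟨h1, h2, h3⟩
    · obtain ⟨η, hη, e1, e2, e3⟩ := margin (a := w.re - κ.l) (b := w.re - κ.α) (c := w.re - κ.β)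
        (by linarith [κ.lα, κ.αr]) (by linarith [κ.αr]) (by linarith [κ.βr])
      exact ⟨η, hη, by linarith, Or.inr (by linarith), Or.inr (by linarith)⟩
    · obtain ⟨η, hη, e1, e2, e3⟩ := margin (a := w.re - κ.l) (b := w.re - κ.α) (c := w.im - κ.b)
        (by linarith [κ.lα]) (by linarith) (by linarith [κ.bh])
      exact ⟨η, hη, by linarith, Or.inr (by linarith), Or.inl (by linarith)⟩
    · obtain ⟨η, hη, e1, e2, e3⟩ := margin (a := w.re - κ.l) (b := κ.h - w.im) (c := w.re - κ.β)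
        (by linarith [κ.lβ]) (by linarith [κ.bh]) (by linarith)
      exact ⟨η, hη, by linarith, Or.inl (by linarith), Or.inr (by linarith)⟩
  obtain ⟨η, hη, E1, E2, E3⟩ := A
  obtain ⟨n0, hn0⟩ := exists_n η hη
  refine ⟨η, hη, n0, fun n hn σ hd hO hin => ?_⟩
  obtain ⟨hn1, hnη⟩ := hn0 n hn
  have C := co κ n hn1 σ
  have hn' : (0 : ℝ) < n := lt_of_lt_of_le one_pos C.n1
  have px := pt_re n σ.1 C.n1
  have py := pt_im n σ.1 C.n1
  obtain ⟨d1, d2, d3, d4⟩ := near hd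
  have m1 := mul_lt_mul_of_pos_left d1 hn'
  have m2 := mul_lt_mul_of_pos_left d2 hn'
  have m3 := mul_lt_mul_of_pos_left d3 hn'
  have m4 := mul_lt_mul_of_pos_left d4 hn'
  have hrt : shS (-κ.s n) (rt σ) = rt (shS (-κ.s n) σ) := by
    obtain ⟨⟨x, y⟩, q⟩ := σ
    cases q <;> rfl
  rw [hrt] at hO
  rcases bdry _ _ hO with ⟨x, hx, x1, x2, x3, x4, x5⟩ | ⟨y, hy, y1, y2, y3⟩
  · rw [hx] at hin
    have x4' : ((shS (-κ.s n) σ).1.1 : ℝ) - 1 ≤ x := by exact_mod_cast x4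
    rcases hin with ⟨-, z1, z2, z3⟩ | ⟨z1, -⟩ | ⟨-, z1, z2, z3⟩
    · change (shS (-κ.s n) σ).1.2 = (κ.dm n).h at z1
      change x < (κ.dm n).t at z3
      have z1' : ((shS (-κ.s n) σ).1.2 : ℝ) = (κ.dm n).h := by exact_mod_cast z1
      have z3' : (x : ℝ) < (κ.dm n).t := by exact_mod_cast z3
      rcases E2 with E2 | E2
      · have := mul_le_mul_of_nonneg_left E2 hn'.le
        linarith [C.y2, C.h1]
      · have := mul_le_mul_of_nonneg_left E2 hn'.le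
        linarith [C.x1, C.t2]
    · exact absurd z1 (by simp)
    · change (shS (-κ.s n) σ).1.2 = 0 at z1
      change x < 0 at z3
      have z1' : ((shS (-κ.s n) σ).1.2 : ℝ) = 0 := by exact_mod_cast z1
      have z3' : (x : ℝ) < 0 := by exact_mod_cast z3
      rcases E3 with E3 | E3
      · have := mul_le_mul_of_nonneg_left E3 hn'.le
        linarith [C.y1]
      · have := mul_le_mul_of_nonneg_left E3 hn'.le
        linarith [C.x1]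
  · rw [hy] at hin
    rcases hin with ⟨z1, -⟩ | ⟨-, z1, z2, z3⟩ | ⟨z1, -⟩
    · exact absurd z1 (by simp)
    · change (shS (-κ.s n) σ).1.1 = (κ.dm n).l at z1
      have z1' : ((shS (-κ.s n) σ).1.1 : ℝ) = (κ.dm n).l := by exact_mod_cast z1
      have := mul_le_mul_of_nonneg_left E1 hn'.le
      linarith [C.x1, C.l2]
    · exact absurd z1 (by simp)

theorem geo : S_GEO := fun κ =>
  ⟨fun ρ hρ => part1 κ ρ hρ, fun w hw => part2 κ w hw, fun w hw => part3 κ w hw⟩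

end Pool.Agent.Y523.LG
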